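import Pool.Agent.Helper16.Disk7.Extract

/-!
# The convex body with support function `s * (1 + ε cos (11 θ) + b cos (22 θ))`
-/

namespace Pool.Agent.Helper72.Disk3

open MeasureTheory Metric Complex Pool.Agent.Helper16.Disk7

/-- The first parameter. -/
noncomputable def ε : ℝ := 1 / 10000

/-- The second parameter. -/
noncomputable def b : ℝ := 132 / 10 ^ 9

/-- The support function on unit vectors. -/
noncomputable def h (z : ℂ) : ℝ := 1 + ε * (z ^ 11).re + b * (z ^ 22).re

/-- Its derivative with respect to the angle. -/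
noncomputable def V (z : ℂ) : ℝ := -(11 * ε * (z ^ 11).im) - 22 * b * (z ^ 22).im

lemma support_ineq (n t : ℂ) (hn : ‖n‖ = 1) (ht : ‖t‖ = 1) :
    h n * t.re + V n * t.im ≤ h (n * t) := by
  have key : ∀ k : ℕ, (n * t) ^ (k + 1) = n ^ (k + 1) * (t.re : ℂ)
      + ((k + 1 : ℕ) : ℂ) * I * n ^ (k + 1) * (t.im : ℂ) + n ^ (k + 1) * F (k + 1) t := by
    intro k
    rw [mul_pow]
    simp only [F]
    ring
  have hb : ∀ k : ℕ, ‖n ^ (k + 1) * F (k + 1) t‖ ≤ (((k : ℝ) + 1) ^ 2 - 1) * (1 - t.re) := by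
    intro k
    rw [norm_mul, norm_pow, hn, one_pow, one_mul]
    exact norm_F_le k t ht
  have re_key : ∀ k : ℕ, ((n * t) ^ (k + 1)).re = (n ^ (k + 1)).re * t.re
      - (k + 1) * (n ^ (k + 1)).im * t.im + (n ^ (k + 1) * F (k + 1) t).re := by
    intro k
    rw [key k, Complex.add_re, Complex.add_re]
    congr 1
    simp only [Complex.mul_re, Complex.mul_im, Complex.I_re, Complex.I_im, Complex.natCast_re,
      Complex.natCast_im, Complex.ofReal_re, Complex.ofReal_im]
    push_cast
    ring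
  have hx : 0 ≤ 1 - t.re := by
    have := Complex.re_le_norm t
    linarith
  have b11 := (abs_le.1 ((Complex.abs_re_le_norm _).trans (hb 10))).1
  have b22 := (abs_le.1 ((Complex.abs_re_le_norm _).trans (hb 21))).1
  have r11 := re_key 10
  have r22 := re_key 21
  norm_num at b11 b22 r11 r22
  simp only [h, V, ε, b]
  rw [r11, r22]
  nlinarith

/-- The convex body with support function `s * h`. -/
def body (s : ℝ) : Set ℂ := {z | ∀ n : ℂ, ‖n‖ = 1 → ip z n ≤ s * h n}

/-- The support point in the direction `n`. -/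
noncomputable def pt (s : ℝ) (n : ℂ) : ℂ := s * ((h n : ℂ) + (V n : ℝ) * I) * n

lemma ip_pt (s : ℝ) (n t : ℂ) (hn : ‖n‖ = 1) :
    ip (pt s n) (n * t) = s * (h n * t.re + V n * t.im) := by
  have h1 : n.re ^ 2 + n.im ^ 2 = 1 := by
    have h2 := Complex.sq_norm n
    rw [hn, Complex.normSq_apply] at h2
    nlinarith
  simp only [ip_eq, pt, Complex.mul_re, Complex.mul_im, Complex.add_re, Complex.add_im,
    Complex.I_re, Complex.I_im, Complex.ofReal_re, Complex.ofReal_im]
  linear_combination (s * (h n * t.re + V n * t.im)) * h1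

lemma pt_mem (s : ℝ) (hs : 0 ≤ s) (n : ℂ) (hn : ‖n‖ = 1) : pt s n ∈ body s := by
  intro m hm
  have h1 : n * ((starRingEnd ℂ) n * m) = m := by
    rw [← mul_assoc, Complex.mul_conj, Complex.normSq_eq_norm_sq, hn]
    simp
  have ht : ‖(starRingEnd ℂ) n * m‖ = 1 := by
    rw [norm_mul, Complex.norm_conj, hn, hm, one_mul]
  have h2 := ip_pt s n ((starRingEnd ℂ) n * m) hn
  rw [h1] at h2
  rw [h2]
  have h3 := support_ineq n ((starRingEnd ℂ) n * m) hn ht
  rw [h1] at h3
  exact mul_le_mul_of_nonneg_left h3 hs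

lemma ip_pt_self (s : ℝ) (n : ℂ) (hn : ‖n‖ = 1) : ip (pt s n) n = s * h n := by
  have h2 := ip_pt s n 1 hn
  rw [mul_one] at h2
  rw [h2]
  simp

lemma h_bounds (z : ℂ) (hz : ‖z‖ = 1) : 1 / 2 ≤ h z ∧ h z ≤ 2 := by
  have h1 : ∀ k : ℕ, |(z ^ k).re| ≤ 1 := fun k => by
    refine (Complex.abs_re_le_norm _).trans ?_
    rw [norm_pow, hz, one_pow]
  have h11 := abs_le.1 (h1 11)
  have h22 := abs_le.1 (h1 22)
  simp only [h, ε, b]
  constructor <;> norm_num <;> linarith [h11.1, h11.2, h22.1, h22.2]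

lemma convex_body (s : ℝ) : Convex ℝ (body s) := by
  intro x hx y hy a c ha hc hac n hn
  have h1 := hx n hn
  have h2 := hy n hn
  have h3 : ip (a • x + c • y) n = a * ip x n + c * ip y n := by
    simp only [ip_eq, Complex.add_re, Complex.add_im, Complex.real_smul, Complex.mul_re,
      Complex.mul_im, Complex.ofReal_re, Complex.ofReal_im]
    ring
  rw [h3]
  calc a * ip x n + c * ip y n ≤ a * (s * h n) + c * (s * h n) := by gcongr
    _ = s * h n := by rw [← add_mul, hac, one_mul]

lemma isClosed_body (s : ℝ) : IsClosed (body s) := by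
  have h1 : body s = ⋂ (n : ℂ) (_ : ‖n‖ = 1), {z | ip z n ≤ s * h n} := by
    ext z
    simp [body]
  rw [h1]
  refine isClosed_iInter fun n => isClosed_iInter fun _ => ?_
  refine isClosed_le ?_ continuous_const
  simp only [ip]
  fun_prop

lemma body_subset (s : ℝ) (hs : 0 ≤ s) : body s ⊆ closedBall 0 (s * 2) := by
  intro z hz
  rw [mem_closedBall_zero_iff]
  by_cases h0 : z = 0
  · rw [h0, norm_zero]
    positivity
  have hn : 0 < ‖z‖ := norm_pos_iff.2 h0
  have h1 : ‖z / ‖z‖‖ = 1 := by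
    rw [norm_div, Complex.norm_real, norm_norm, div_self hn.ne']
  have h2 := hz (z / ‖z‖) h1
  have h3 : ip z (z / ‖z‖) = ‖z‖ := by
    rw [ip_eq, Complex.div_ofReal_re, Complex.div_ofReal_im]
    have h4 := Complex.sq_norm z
    rw [Complex.normSq_apply] at h4
    field_simp
    nlinarith
  rw [h3] at h2
  exact h2.trans (mul_le_mul_of_nonneg_left (h_bounds _ h1).2 hs)

lemma isCompact_body (s : ℝ) (hs : 0 ≤ s) : IsCompact (body s) :=
  (isCompact_closedBall (0 : ℂ) (s * 2)).of_isClosed_subset (isClosed_body s) (body_subset s hs)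

lemma ball_subset_body (s : ℝ) (hs : 0 ≤ s) : closedBall 0 (s / 2) ⊆ body s := by
  intro z hz n hn
  rw [mem_closedBall_zero_iff] at hz
  have h1 := (h_bounds n hn).1
  have h2 : s * (1 / 2) ≤ s * h n := mul_le_mul_of_nonneg_left h1 hs
  linarith [ip_le_norm z n hn]

lemma supportFn_body (s : ℝ) (hs : 0 ≤ s) (θ : ℝ) : supportFn (body s) θ = s * h (e θ) := by
  have key : ∀ z : ℂ, z.re * Real.cos θ + z.im * Real.sin θ = ip z (e θ) := by
    intro z
    rw [ip_eq, e_re, e_im]
  rw [supportFn]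
  simp only [key]
  refine IsGreatest.csSup_eq ⟨⟨pt s (e θ), pt_mem s hs _ (norm_e θ), ip_pt_self s _ (norm_e θ)⟩, ?_⟩
  rintro _ ⟨z, hz, rfl⟩
  exact hz _ (norm_e θ)

lemma h_e (θ : ℝ) : h (e θ) = 1 + ε * Real.cos (11 * θ) + b * Real.cos (22 * θ) := by
  rw [h, e_pow, e_pow, e_re, e_re]
  norm_num

lemma perimeter_body (s : ℝ) (hs : 0 ≤ s) : perimeter (body s) = s * (2 * Real.pi) := by
  rw [perimeter]
  simp only [supportFn_body s hs]
  rw [intervalIntegral.integral_const_mul]
  congr 1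
  have h1 : ∀ θ : ℝ, h (e θ) = 1 + (ε * Real.cos ((11 : ℕ) * θ) + b * Real.cos ((22 : ℕ) * θ)) := by
    intro θ
    rw [h_e]
    push_cast
    ring
  simp only [h1]
  have i1 : ∀ (a : ℝ) (k : ℕ), IntervalIntegrable (fun θ : ℝ => a * Real.cos (k * θ)) volume 0
      (2 * Real.pi) := fun a k => by
    have : Continuous fun θ : ℝ => a * Real.cos (k * θ) := by fun_prop
    exact this.intervalIntegrable _ _
  rw [intervalIntegral.integral_add (by simp) ((i1 _ _).add (i1 _ _)),
    intervalIntegral.integral_add (i1 _ _) (i1 _ _)]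
  simp only [intervalIntegral.integral_const_mul]
  rw [integral_cos_nat 11 (by norm_num), integral_cos_nat 22 (by norm_num)]
  simp

lemma isUnitConvexSet_body : IsUnitConvexSet (body (1 / (2 * Real.pi))) where
  nonempty := ⟨0, ball_subset_body _ (by positivity) (by simp; positivity)⟩
  isCompact := isCompact_body _ (by positivity)
  convex := convex_body _
  perimeter_eq := by
    rw [perimeter_body _ (by positivity)]
    have := Real.pi_pos
    field_simp

end Pool.Agent.Helper72.Disk3
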