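import Pool.Agent.Helper72.Disk3.Local

/-!
# The analytic core: no position of the body between two disks
-/

namespace Pool.Agent.Helper72.Disk3

open Real

/-- A first bound for the half angle between the separating directions. -/
lemma angle_bound (γ P₁ A₁ B₁ A₂ B₂ t : ℝ) (hγ0 : 0 ≤ γ) (hγ1 : γ ≤ π / 2)
    (h1 : A₁ ^ 2 + B₁ ^ 2 ≤ 4 / 3) (h2 : A₂ ^ 2 + B₂ ^ 2 ≤ 4 / 3)
    (hd : 4 ≤ (A₁ - A₂) ^ 2 + (B₁ - B₂) ^ 2)
    (k0 : -P₁ + (1 + ε * cos t + b * cos (2 * t)) ≤ 1 + 2 / √3)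
    (k3 : 2 * P₁ * cos γ + 4 - 2 * (ε + b) ≤ (A₁ + A₂) * cos γ + (B₂ - B₁) * sin γ) :
    γ ≤ π / 3 ∧ |γ - π / 6| ≤ 1 / 40 := by
  obtain ⟨s1, s2⟩ := sqrt3_bounds
  have h3 : √3 ^ 2 = 3 := Real.sq_sqrt (by norm_num)
  have h3p : 0 < √3 := by linarith
  have hε : ε = 1 / 10000 := rfl
  have hb : b = 132 / 10 ^ 9 := rfl
  have hpi := Real.pi_gt_three
  have hpi4 : π < 3.15 := Real.pi_lt_d2
  have hcγ : 0 ≤ cos γ := cos_nonneg_of_mem_Icc ⟨by linarith, hγ1⟩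
  have hsγ : 0 ≤ sin γ := sin_nonneg_of_nonneg_of_le_pi hγ0 (by linarith)
  have hcs := sin_sq_add_cos_sq γ
  have hr : 2 / √3 = 2 / 3 * √3 := by
    rw [div_eq_iff h3p.ne']; linear_combination (-(2 / 3)) * h3
  rw [hr] at k0
  have hP : -(2 / 3 * √3) - (ε + b) ≤ P₁ := by
    have e1 := abs_le.1 (abs_cos_le_one t)
    have e2 := abs_le.1 (abs_cos_le_one (2 * t))
    rw [hε, hb] at k0 ⊢
    norm_num at k0 ⊢
    linarith [e1.1, e2.1]
  have hP2 : (-(2 / 3 * √3) - (ε + b)) * cos γ ≤ P₁ * cos γ := mul_le_mul_of_nonneg_right hP hcγ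
  set s := (A₁ + A₂) / 2 with hs
  set d := (B₂ - B₁) / 2 with hdd
  have es : s ^ 2 ≤ 1 / 3 := by
    rw [hs]; nlinarith [sq_nonneg (B₁ + B₂)]
  have esd : s ^ 2 + d ^ 2 ≤ 4 / 3 := by
    rw [hs, hdd]; nlinarith [sq_nonneg (A₁ - A₂), sq_nonneg (B₁ + B₂)]
  have hsum : (A₁ + A₂) * cos γ + (B₂ - B₁) * sin γ = 2 * (s * cos γ + d * sin γ) := by
    rw [hs, hdd]; ring
  rw [hsum] at k3
  have hs3 : s ≤ √3 / 3 := by
    refine (abs_le_of_sq_le_sq' ?_ (by positivity)).2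
    nlinarith
  have hγ3 : γ ≤ π / 3 := by
    by_contra hcon
    push Not at hcon
    have e1 : cos γ ≤ 1 / 2 := by
      rw [← cos_pi_div_three]
      exact (cos_lt_cos_of_nonneg_of_le_pi (by positivity) (by linarith) hcon).le
    have e2 : s * cos γ + d * sin γ ≤ 2 / 3 * √3 := by
      refine (abs_le_of_sq_le_sq' ?_ (by positivity)).2
      nlinarith [sq_nonneg (s * sin γ - d * cos γ)]
    have e3 : (2 / 3 * √3 + (ε + b)) * cos γ ≤ (2 / 3 * √3 + (ε + b)) * (1 / 2) :=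
      mul_le_mul_of_nonneg_left e1 (by rw [hε, hb]; positivity)
    rw [hε, hb] at *
    norm_num at *
    nlinarith
  refine ⟨hγ3, ?_⟩
  have hw : 0 ≤ cos γ - sin γ * √3 / 3 := by
    have e1 : cos γ - sin γ * √3 / 3 = 2 / √3 * sin (π / 3 - γ) := by
      rw [sin_sub, sin_pi_div_three, cos_pi_div_three, hr]
      linear_combination (-(1 / 3)) * cos γ * h3
    rw [e1]
    exact mul_nonneg (by positivity) (sin_nonneg_of_nonneg_of_le_pi (by linarith) (by linarith))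
  have e5 : s * (√3 / 3) + d ≤ 4 / 3 := by
    refine (abs_le_of_sq_le_sq' ?_ (by norm_num)).2
    nlinarith [sq_nonneg (s - d * (√3 / 3))]
  have e6 : s * cos γ + d * sin γ ≤ sin γ + cos γ * (√3 / 3) := by
    have f1 : s * (cos γ - sin γ * √3 / 3) ≤ √3 / 3 * (cos γ - sin γ * √3 / 3) :=
      mul_le_mul_of_nonneg_right hs3 hw
    have f2 : sin γ * (s * (√3 / 3) + d) ≤ sin γ * (4 / 3) := mul_le_mul_of_nonneg_left e5 hsγ
    nlinarith
  have e7 : sin γ + √3 * cos γ = 2 * cos (γ - π / 6) := by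
    rw [cos_sub, cos_pi_div_six, sin_pi_div_six]; ring
  have e8 : 1 - cos (γ - π / 6) ≤ ε + b := by
    have f1 : (ε + b) * cos γ ≤ (ε + b) * 1 :=
      mul_le_mul_of_nonneg_left (cos_le_one γ) (by rw [hε, hb]; norm_num)
    have f2 : 2 * cos (γ - π / 6) = sin γ + √3 * cos γ := e7.symm
    nlinarith
  have e9 : cos (γ - π / 6) ≤ 1 - 2 / π ^ 2 * (γ - π / 6) ^ 2 :=
    Real.cos_le_one_sub_mul_cos_sq (by rw [abs_le]; constructor <;> linarith)
  have e10 : 2 / π ^ 2 * (γ - π / 6) ^ 2 ≤ ε + b := by linarith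
  have e11 : (γ - π / 6) ^ 2 ≤ (1 / 40) ^ 2 := by
    have f1 : π ^ 2 < 10 := by nlinarith
    have f2 : 1 / 5 ≤ 2 / π ^ 2 := by
      rw [div_le_div_iff₀ (by norm_num) (by positivity)]; linarith
    have f3 : 1 / 5 * (γ - π / 6) ^ 2 ≤ 2 / π ^ 2 * (γ - π / 6) ^ 2 :=
      mul_le_mul_of_nonneg_right f2 (sq_nonneg _)
    rw [hε, hb] at e10
    norm_num at e10 ⊢
    linarith
  rw [← sq_abs] at e11
  exact (abs_le_of_sq_le_sq' e11 (by norm_num)).2

/-- The core in rotated coordinates. -/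
theorem core_rot (γ P₁ P₂ A₁ B₁ A₂ B₂ t : ℝ) (hγ0 : 0 ≤ γ) (hγ1 : γ ≤ π / 2)
    (h1 : A₁ ^ 2 + B₁ ^ 2 ≤ 4 / 3) (h2 : A₂ ^ 2 + B₂ ^ 2 ≤ 4 / 3)
    (hd : 4 ≤ (A₁ - A₂) ^ 2 + (B₁ - B₂) ^ 2)
    (k0 : ∀ δ, -(P₁ * cos δ + P₂ * sin δ)
      + (1 + ε * cos (11 * δ - t) + b * cos (22 * δ - 2 * t)) ≤ 1 + 2 / √3)
    (k1 : P₁ * cos γ - P₂ * sin γ + (1 - ε * cos (11 * γ + t) + b * cos (22 * γ + 2 * t)) + 1
      ≤ A₁ * cos γ - B₁ * sin γ)
    (k2 : P₁ * cos γ + P₂ * sin γ + (1 - ε * cos (11 * γ - t) + b * cos (22 * γ - 2 * t)) + 1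
      ≤ A₂ * cos γ + B₂ * sin γ) : False := by
  obtain ⟨s1, s2⟩ := sqrt3_bounds
  have h3 : √3 ^ 2 = 3 := Real.sq_sqrt (by norm_num)
  have h3p : 0 < √3 := by linarith
  have hε : ε = 1 / 10000 := rfl
  have hb : b = 132 / 10 ^ 9 := rfl
  have hpi := Real.pi_gt_three
  have hpi4 : π < 3.15 := Real.pi_lt_d2
  have hr : 2 / √3 = 2 / 3 * √3 := by
    rw [div_eq_iff h3p.ne']; linear_combination (-(2 / 3)) * h3
  obtain ⟨hγ3, hy⟩ := angle_bound γ P₁ A₁ B₁ A₂ B₂ t hγ0 hγ1 h1 h2 hd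
    (by
      have := k0 0
      simp only [mul_zero, zero_sub, cos_neg, cos_zero, sin_zero, mul_one, add_zero] at this
      linarith)
    (by
      have e1 := abs_le.1 (abs_cos_le_one (11 * γ + t))
      have e2 := abs_le.1 (abs_cos_le_one (22 * γ + 2 * t))
      have e3 := abs_le.1 (abs_cos_le_one (11 * γ - t))
      have e4 := abs_le.1 (abs_cos_le_one (22 * γ - 2 * t))
      rw [hε, hb] at k1 k2 ⊢
      norm_num at k1 k2 ⊢
      linarith [e1.2, e2.1, e3.2, e4.1])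
  set y := γ - π / 6 with hyd
  have hγy : γ = π / 6 + y := by rw [hyd]; ring
  set δ := 3 * √3 * ε * sin t with hδ
  have hδ3 : |δ| ≤ 5.2 * ε := by
    rw [hδ, abs_mul, abs_of_pos (by rw [hε]; positivity : 0 < 3 * √3 * ε)]
    have : 3 * √3 * ε * |sin t| ≤ 3 * √3 * ε * 1 :=
      mul_le_mul_of_nonneg_left (abs_sin_le_one t) (by rw [hε]; positivity)
    refine this.trans ?_
    rw [hε]
    norm_num at s2 ⊢
    linarith
  have hδ4 := abs_le.1 hδ3
  have hy4 := abs_le.1 hy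
  rw [hε] at hδ4
  norm_num at hδ4
  have hloc := local_ineq y t δ hy hδ
  rw [← hγy] at hloc
  have hsin := sin_ge y hy
  rw [← hγy] at hsin
  have hspos : 0 < sin γ := lt_of_lt_of_le (by norm_num) hsin
  have hw₁ : 0 ≤ sin (γ - δ) :=
    sin_nonneg_of_nonneg_of_le_pi (by linarith [hδ4.1, hδ4.2]) (by linarith [hδ4.1, hδ4.2])
  have hw₂ : 0 ≤ sin (γ + δ) :=
    sin_nonneg_of_nonneg_of_le_pi (by linarith [hδ4.1, hδ4.2]) (by linarith [hδ4.1, hδ4.2])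
  have hs2γ : 0 ≤ sin (2 * γ) := sin_nonneg_of_nonneg_of_le_pi (by linarith) (by linarith)
  have hc2γ : 0 ≤ cos (2 * γ) + sin (2 * γ) / √3 := by
    have e1 : cos (2 * γ) + sin (2 * γ) / √3 = 2 / √3 * sin (2 * γ + π / 3) := by
      rw [sin_add, sin_pi_div_three, cos_pi_div_three]
      field_simp
      ring
    rw [e1]
    exact mul_nonneg (by positivity) (sin_nonneg_of_nonneg_of_le_pi (by linarith) (by linarith))
  have hX := two_points A₁ B₁ A₂ B₂ (sin (γ - δ)) (sin (γ + δ)) γ h1 h2 hd hw₁ hw₂ hs2γ hc2γ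
  set X := sin (γ - δ) * (A₁ * cos γ - B₁ * sin γ) + sin (γ + δ) * (A₂ * cos γ + B₂ * sin γ)
    with hXd
  have hη : 0.84 ≤ cos (π / 6 - y) := by
    have := cos_sub_le (-y) (by rwa [abs_neg])
    rw [abs_neg, ← sub_eq_add_neg, abs_le] at this
    norm_num at s1 ⊢
    linarith [this.1]
  have hηpos : 0 < cos (π / 6 - y) := lt_of_lt_of_le (by norm_num) hη
  set S₀ := 2 * sin γ * cos (π / 6 - y) with hS₀
  have hS₀pos : 0 < S₀ := by positivity
  have hS : sin (γ - δ) ^ 2 + sin (γ + δ) ^ 2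
        + 2 * sin (γ - δ) * sin (γ + δ) * (-(1 / 2) * cos (2 * γ) + √3 / 2 * sin (2 * γ))
      = S₀ ^ 2 - 2 * √3 * sin δ ^ 2 * sin (2 * y) := by
    have e1 : cos (π / 6 - y) = 1 / 2 * cos γ + √3 / 2 * sin γ := by
      have : π / 6 - y = π / 3 - γ := by rw [hyd]; ring
      rw [this, cos_sub, cos_pi_div_three, sin_pi_div_three]
    have e2 : sin (2 * y) = 1 / 2 * sin (2 * γ) - √3 / 2 * cos (2 * γ) := by
      have : 2 * y = 2 * γ - π / 3 := by rw [hyd]; ring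
      rw [this, sin_sub, cos_pi_div_three, sin_pi_div_three]; ring
    have e3 := sin_sq_add_cos_sq γ
    have e4 := sin_sq_add_cos_sq δ
    have e5 : sin (2 * γ) = 2 * sin γ * cos γ := sin_two_mul γ
    have e6 : cos (2 * γ) = cos γ ^ 2 - sin γ ^ 2 := by rw [cos_two_mul]; linarith
    rw [hS₀, e1, e2, sin_sub, sin_add, e5, e6]
    linear_combination (2 * sin γ ^ 2 * (1 + (-(1 / 2) * (cos γ ^ 2 - sin γ ^ 2)
        + √3 / 2 * (2 * sin γ * cos γ)))) * e4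
      + (-(2 * sin δ ^ 2 * (-(1 / 2) * (cos γ ^ 2 - sin γ ^ 2)
        + √3 / 2 * (2 * sin γ * cos γ))) - 2 * sin γ ^ 2) * e3
      - (sin γ ^ 4 + sin δ ^ 2 * (cos γ ^ 2 - sin γ ^ 2)) * h3
  have hXS : X ≤ 2 / √3 * S₀ - 2 * (sin δ ^ 2 * sin (2 * y)) / S₀ := by
    have e1 : 2 * X * (2 / √3 * S₀) ≤ X ^ 2 + (2 / √3 * S₀) ^ 2 := by
      nlinarith [sq_nonneg (X - 2 / √3 * S₀)]
    have e2 : (2 / √3 * S₀) ^ 2 = 4 / 3 * S₀ ^ 2 := by
      rw [mul_pow, div_pow, h3]; norm_num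
    rw [hS] at hX
    have e3 : X * (4 / √3 * S₀)
        ≤ (2 / √3 * S₀ - 2 * (sin δ ^ 2 * sin (2 * y)) / S₀) * (4 / √3 * S₀) := by
      have e4 : (2 / √3 * S₀ - 2 * (sin δ ^ 2 * sin (2 * y)) / S₀) * (4 / √3 * S₀)
          = 8 / 3 * S₀ ^ 2 - 8 / 3 * √3 * (sin δ ^ 2 * sin (2 * y)) := by
        field_simp
        linear_combination (-8 * S₀ ^ 2 + 8 * √3 * (sin δ ^ 2 * sin (2 * y))) * h3
      rw [e4]
      have e5 : X * (4 / √3 * S₀) = 2 * X * (2 / √3 * S₀) := by ring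
      rw [e5]
      linarith
    exact le_of_mul_le_mul_right e3 (by positivity)
  -- the combination of the three inequalities
  have hcomb : sin (2 * γ) * (ε * cos (11 * δ - t) + b * cos (22 * δ - 2 * t) - 2 / √3)
      + sin (γ - δ) * (2 - ε * cos (11 * γ + t) + b * cos (22 * γ + 2 * t))
      + sin (γ + δ) * (2 - ε * cos (11 * γ - t) + b * cos (22 * γ - 2 * t)) ≤ X := by
    have c0 := mul_le_mul_of_nonneg_left (k0 δ) hs2γ
    have c1 := mul_le_mul_of_nonneg_left k1 hw₁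
    have c2 := mul_le_mul_of_nonneg_left k2 hw₂
    have e1 : -(sin (2 * γ) * (P₁ * cos δ + P₂ * sin δ))
        + sin (γ - δ) * (P₁ * cos γ - P₂ * sin γ) + sin (γ + δ) * (P₁ * cos γ + P₂ * sin γ) = 0 := by
      rw [sin_two_mul, sin_sub, sin_add]; ring
    rw [hXd]
    linarith
  -- the factorisation
  set E := sin δ ^ 2 * sin (2 * y) / (2 * sin γ * cos (π / 6 - y) * sin γ) with hE
  have hE2 : 2 * sin γ * E = 2 * (sin δ ^ 2 * sin (2 * y)) / S₀ := by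
    rw [hE, hS₀]
    field_simp
  have hcosy : 2 / √3 * S₀ + sin (2 * γ) * (2 / √3) = 2 * sin γ * (2 * cos y) := by
    have e1 : cos (π / 6 - y) = √3 / 2 * cos y + 1 / 2 * sin y := by
      rw [cos_sub, cos_pi_div_six, sin_pi_div_six]
    have e2 : cos γ = √3 / 2 * cos y - 1 / 2 * sin y := by
      rw [hγy, cos_add, cos_pi_div_six, sin_pi_div_six]
    rw [hS₀, sin_two_mul, e1, e2, hr]
    linear_combination (4 / 3 * sin γ * cos y) * h3
  set q := cos γ / sin γ with hq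
  have hqs : q * sin γ = cos γ := div_mul_cancel₀ _ hspos.ne'
  have hfac : sin (2 * γ) * (ε * cos (11 * δ - t) + b * cos (22 * δ - 2 * t))
      + sin (γ - δ) * (2 - ε * cos (11 * γ + t) + b * cos (22 * γ + 2 * t))
      + sin (γ + δ) * (2 - ε * cos (11 * γ - t) + b * cos (22 * γ - 2 * t))
      = 2 * sin γ * (2 * cos δ
        + ε * (cos t * (cos γ * cos (11 * δ) - cos δ * cos (11 * γ))
          + sin t * (cos γ * sin (11 * δ) - q * sin δ * sin (11 * γ)))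
        + b * (cos (2 * t) * (cos γ * cos (22 * δ) + cos δ * cos (22 * γ))
          + sin (2 * t) * (cos γ * sin (22 * δ) + q * sin δ * sin (22 * γ)))) := by
    rw [sin_two_mul γ, sin_sub, sin_add, cos_sub (11 * δ) t, cos_sub (22 * δ) (2 * t),
      cos_add (11 * γ) t, cos_add (22 * γ) (2 * t), cos_sub (11 * γ) t, cos_sub (22 * γ) (2 * t)]
    linear_combination (2 * ε * sin t * sin δ * sin (11 * γ)
      - 2 * b * sin (2 * t) * sin δ * sin (22 * γ)) * hqs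
  have hpos := mul_pos (by positivity : 0 < 2 * sin γ) hloc
  linarith

end Pool.Agent.Helper72.Disk3
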