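import Mathlib

/-!
# Trigonometric estimates and the bound for two disks
-/

namespace Pool.Agent.Helper72.Disk3

open Real

/-- Bound for two points of the disk of radius `2 / √3` at distance at least `2`. -/
lemma two_points (A₁ B₁ A₂ B₂ w₁ w₂ γ : ℝ) (h1 : A₁ ^ 2 + B₁ ^ 2 ≤ 4 / 3)
    (h2 : A₂ ^ 2 + B₂ ^ 2 ≤ 4 / 3) (hd : 4 ≤ (A₁ - A₂) ^ 2 + (B₁ - B₂) ^ 2)
    (hw₁ : 0 ≤ w₁) (hw₂ : 0 ≤ w₂) (hs : 0 ≤ sin (2 * γ))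
    (hs' : 0 ≤ cos (2 * γ) + sin (2 * γ) / √3) :
    (w₁ * (A₁ * cos γ - B₁ * sin γ) + w₂ * (A₂ * cos γ + B₂ * sin γ)) ^ 2
      ≤ 4 / 3 * (w₁ ^ 2 + w₂ ^ 2
        + 2 * w₁ * w₂ * (-(1 / 2) * cos (2 * γ) + √3 / 2 * sin (2 * γ))) := by
  have h3 : √3 ^ 2 = 3 := Real.sq_sqrt (by norm_num)
  have h3p : 0 < √3 := Real.sqrt_pos.2 (by norm_num)
  set P := A₁ * A₂ + B₁ * B₂ with hP
  set Q := A₁ * B₂ - B₁ * A₂ with hQ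
  have hP1 : P ≤ -(2 / 3) := by
    rw [hP]; nlinarith
  have hPQ : P ^ 2 + Q ^ 2 ≤ (4 / 3) ^ 2 := by
    have e1 : P ^ 2 + Q ^ 2 = (A₁ ^ 2 + B₁ ^ 2) * (A₂ ^ 2 + B₂ ^ 2) := by rw [hP, hQ]; ring
    have e2 : (4 / 3 : ℝ) ^ 2 = 4 / 3 * (4 / 3) := by ring
    rw [e1, e2]
    exact mul_le_mul h1 h2 (by positivity) (by norm_num)
  have hR : -(1 / 2) * P + √3 / 2 * Q ≤ 4 / 3 := by
    have e1 : (-(1 / 2) * P + √3 / 2 * Q) ^ 2 ≤ (4 / 3) ^ 2 := by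
      have e2 : (-(1 / 2) * P + √3 / 2 * Q) ^ 2 + (√3 / 2 * P + 1 / 2 * Q) ^ 2
          = P ^ 2 + Q ^ 2 := by linear_combination ((P ^ 2 + Q ^ 2) / 4) * h3
      nlinarith [sq_nonneg (√3 / 2 * P + 1 / 2 * Q)]
    exact (abs_le_of_sq_le_sq' e1 (by norm_num)).2
  have hlin : P * cos (2 * γ) + Q * sin (2 * γ)
      ≤ 4 / 3 * (-(1 / 2) * cos (2 * γ) + √3 / 2 * sin (2 * γ)) := by
    have e1 : P * cos (2 * γ) + Q * sin (2 * γ) = (cos (2 * γ) + sin (2 * γ) / √3) * P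
        + (2 * sin (2 * γ) / √3) * (-(1 / 2) * P + √3 / 2 * Q) := by
      field_simp
      ring
    have e2 : (cos (2 * γ) + sin (2 * γ) / √3) * P
        ≤ (cos (2 * γ) + sin (2 * γ) / √3) * (-(2 / 3)) := mul_le_mul_of_nonneg_left hP1 hs'
    have e3 : (2 * sin (2 * γ) / √3) * (-(1 / 2) * P + √3 / 2 * Q)
        ≤ (2 * sin (2 * γ) / √3) * (4 / 3) := mul_le_mul_of_nonneg_left hR (by positivity)
    rw [e1]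
    refine (add_le_add e2 e3).trans (le_of_eq ?_)
    field_simp
    linear_combination (-(4 : ℝ)) * sin (2 * γ) * h3
  have hsq := Real.sin_sq_add_cos_sq γ
  have hc2 : cos (2 * γ) = cos γ ^ 2 - sin γ ^ 2 := by rw [Real.cos_two_mul]; linarith
  have hs2 : sin (2 * γ) = 2 * sin γ * cos γ := Real.sin_two_mul γ
  have hid : (w₁ * (A₁ * cos γ - B₁ * sin γ) + w₂ * (A₂ * cos γ + B₂ * sin γ)) ^ 2
      + (w₁ * (A₁ * sin γ + B₁ * cos γ) + w₂ * (-(A₂ * sin γ) + B₂ * cos γ)) ^ 2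
      = (A₁ ^ 2 + B₁ ^ 2) * w₁ ^ 2 + (A₂ ^ 2 + B₂ ^ 2) * w₂ ^ 2
        + 2 * w₁ * w₂ * (P * cos (2 * γ) + Q * sin (2 * γ)) := by
    rw [hc2, hs2, hP, hQ]
    linear_combination ((A₁ ^ 2 + B₁ ^ 2) * w₁ ^ 2 + (A₂ ^ 2 + B₂ ^ 2) * w₂ ^ 2) * hsq
  have f1 : (A₁ ^ 2 + B₁ ^ 2) * w₁ ^ 2 ≤ 4 / 3 * w₁ ^ 2 :=
    mul_le_mul_of_nonneg_right h1 (sq_nonneg _)
  have f2 : (A₂ ^ 2 + B₂ ^ 2) * w₂ ^ 2 ≤ 4 / 3 * w₂ ^ 2 :=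
    mul_le_mul_of_nonneg_right h2 (sq_nonneg _)
  have f3 : 2 * w₁ * w₂ * (P * cos (2 * γ) + Q * sin (2 * γ))
      ≤ 2 * w₁ * w₂ * (4 / 3 * (-(1 / 2) * cos (2 * γ) + √3 / 2 * sin (2 * γ))) :=
    mul_le_mul_of_nonneg_left hlin (by positivity)
  nlinarith [sq_nonneg (w₁ * (A₁ * sin γ + B₁ * cos γ) + w₂ * (-(A₂ * sin γ) + B₂ * cos γ))]

end Pool.Agent.Helper72.Disk3
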