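import Pool.Agent.Helper72.Disk3.Body
import Pool.Agent.Helper72.Disk3.Trig

/-!
# The local inequality
-/

namespace Pool.Agent.Helper72.Disk3

open Real

lemma one_sub_cos_nonneg (x : ℝ) : 0 ≤ 1 - cos x := by linarith [cos_le_one x]

lemma one_sub_cos_le (x : ℝ) : 1 - cos x ≤ x ^ 2 / 2 := by
  linarith [one_sub_sq_div_two_le_cos (x := x)]

lemma abs_sin_sub_le (x : ℝ) : |sin x - x| ≤ |x| ^ 3 / 6 := by
  rcases lt_trichotomy x 0 with hx | hx | hx
  · have h1 := sin_gt_sub_cube (x := -x) (by linarith)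
    have h2 := sin_lt (x := -x) (by linarith)
    rw [sin_neg] at h1 h2
    rw [abs_of_neg hx, abs_le]
    constructor
    · nlinarith [pow_pos (neg_pos.2 hx) 3]
    · linarith
  · rw [hx]; simp
  · have h1 := sin_gt_sub_cube (x := x) hx
    have h2 := sin_lt (x := x) hx
    rw [abs_of_pos hx, abs_le]
    constructor
    · linarith
    · nlinarith [pow_pos hx 3]

lemma sqrt3_bounds : (1.732 : ℝ) < √3 ∧ √3 < 1.7321 :=
  ⟨Real.lt_sqrt_of_sq_lt (by norm_num), (Real.sqrt_lt' (by norm_num)).2 (by norm_num)⟩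

lemma abs_mul_le {a c A C : ℝ} (h1 : |a| ≤ A) (h2 : |c| ≤ C) : |a * c| ≤ A * C := by
  rw [abs_mul]
  exact mul_le_mul h1 h2 (abs_nonneg _) ((abs_nonneg _).trans h1)

section bounds

variable (y δ : ℝ)

lemma bound_A (hy : |y| ≤ 1 / 40) :
    |cos (π / 6 + y) * cos (11 * δ) - cos δ * cos (11 * (π / 6 + y)) + 6 * y|
      ≤ 61 * δ ^ 2 + 56 * y ^ 2 := by
  obtain ⟨s1, s2⟩ := sqrt3_bounds
  have e1 : cos (11 * (π / 6 + y)) = √3 / 2 * cos (11 * y) + 1 / 2 * sin (11 * y) := by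
    have : 11 * (π / 6 + y) = (11 * y - π / 6) + 2 * π := by ring
    rw [this, cos_add_two_pi, cos_sub, cos_pi_div_six, sin_pi_div_six]
    ring
  have e2 : cos (π / 6 + y) = √3 / 2 * cos y - 1 / 2 * sin y := by
    rw [cos_add, cos_pi_div_six, sin_pi_div_six]
  have a1 : |cos (π / 6 + y) * (cos (11 * δ) - 1)| ≤ 1 * ((11 * δ) ^ 2 / 2) := by
    refine abs_mul_le (abs_cos_le_one _) ?_
    rw [abs_sub_comm, abs_of_nonneg (one_sub_cos_nonneg _)]
    exact one_sub_cos_le _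
  have a2 : |cos (11 * (π / 6 + y)) * (1 - cos δ)| ≤ 1 * (δ ^ 2 / 2) := by
    refine abs_mul_le (abs_cos_le_one _) ?_
    rw [abs_of_nonneg (one_sub_cos_nonneg _)]
    exact one_sub_cos_le _
  have a3 : |√3 / 2 * (cos y - cos (11 * y))| ≤ 0.8661 * ((11 * y) ^ 2 / 2) := by
    refine abs_mul_le ?_ ?_
    · rw [abs_of_pos (by positivity)]; norm_num at s2 ⊢; linarith
    · rw [abs_le]
      constructor
      · nlinarith [one_sub_cos_nonneg (11 * y), one_sub_cos_le y, sq_nonneg y]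
      · linarith [one_sub_cos_nonneg y, one_sub_cos_le (11 * y)]
  have a4 := abs_sin_sub_le y
  have a5 := abs_sin_sub_le (11 * y)
  have u0 := abs_nonneg y
  have u2 : |y| ^ 2 = y ^ 2 := sq_abs y
  have a6 : |11 * y| ^ 3 = 1331 * |y| ^ 3 := by
    rw [abs_mul, mul_pow, abs_of_pos (by norm_num : (0 : ℝ) < 11)]; norm_num
  have a7 : |y| ^ 3 ≤ y ^ 2 / 40 := by
    rw [← u2]
    nlinarith [mul_nonneg (sq_nonneg |y|) (by linarith : 0 ≤ 1 / 40 - |y|)]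
  rw [a6] at a5
  have key : cos (π / 6 + y) * cos (11 * δ) - cos δ * cos (11 * (π / 6 + y)) + 6 * y
      = cos (π / 6 + y) * (cos (11 * δ) - 1) + cos (11 * (π / 6 + y)) * (1 - cos δ)
        + √3 / 2 * (cos y - cos (11 * y)) - 1 / 2 * (sin y - y)
        - 1 / 2 * (sin (11 * y) - 11 * y) := by
    rw [e1, e2]; ring
  rw [key]
  rw [abs_le] at a1 a2 a3 a4 a5 ⊢
  obtain ⟨a1, b1⟩ := a1
  obtain ⟨a2, b2⟩ := a2
  obtain ⟨a3, b3⟩ := a3
  obtain ⟨a4, b4⟩ := a4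
  obtain ⟨a5, b5⟩ := a5
  have y2 := sq_nonneg y
  norm_num at a3 b3
  constructor <;> nlinarith

lemma sin_ge (hy : |y| ≤ 1 / 40) : 0.45 ≤ sin (π / 6 + y) := by
  obtain ⟨s1, s2⟩ := sqrt3_bounds
  rw [sin_add, cos_pi_div_six, sin_pi_div_six]
  have h1 := one_sub_cos_le y
  have h2 : |sin y| ≤ 1 / 40 := (abs_sin_le_abs).trans hy
  rw [abs_le] at h2 hy
  have h3 : y ^ 2 ≤ 1 / 1600 := by nlinarith
  have h4 : -(0.8661 * (1 / 40)) ≤ √3 / 2 * sin y := by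
    have : √3 / 2 * (-(1 / 40)) ≤ √3 / 2 * sin y := mul_le_mul_of_nonneg_left h2.1 (by positivity)
    norm_num at s2 ⊢
    linarith
  norm_num at h4 ⊢
  linarith

lemma cos_sub_le (hy : |y| ≤ 1 / 40) : |cos (π / 6 + y) - √3 / 2| ≤ |y| := by
  obtain ⟨s1, s2⟩ := sqrt3_bounds
  rw [cos_add, cos_pi_div_six, sin_pi_div_six]
  have h1 := one_sub_cos_le y
  have h0 := one_sub_cos_nonneg y
  have h2 : |sin y| ≤ |y| := abs_sin_le_abs
  have u0 := abs_nonneg y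
  have u2 : |y| ^ 2 = y ^ 2 := sq_abs y
  have h3 : |√3 / 2 * (cos y - 1)| ≤ 0.8661 * (y ^ 2 / 2) := by
    refine abs_mul_le ?_ ?_
    · rw [abs_of_pos (by positivity)]; norm_num at s2 ⊢; linarith
    · rw [abs_sub_comm, abs_of_nonneg h0]; exact h1
  have h4 : y ^ 2 ≤ |y| / 40 := by rw [← u2]; nlinarith
  have key : √3 / 2 * cos y - 1 / 2 * sin y - √3 / 2 = √3 / 2 * (cos y - 1) - 1 / 2 * sin y := by
    ring
  rw [key]
  rw [abs_le] at h2 h3 ⊢
  norm_num at h3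
  constructor <;> nlinarith [h2.1, h2.2, h3.1, h3.2]

lemma cot_bound (hy : |y| ≤ 1 / 40) :
    |cos (π / 6 + y) / sin (π / 6 + y) - √3| ≤ 4.5 * |y| := by
  have h1 := sin_ge y hy
  have h3 : √3 ^ 2 = 3 := Real.sq_sqrt (by norm_num)
  have hpos : 0 < sin (π / 6 + y) := lt_of_lt_of_le (by norm_num) h1
  have e1 : cos (π / 6 + y) / sin (π / 6 + y) - √3 = -(2 * sin y) / sin (π / 6 + y) := by
    rw [eq_div_iff hpos.ne', sub_mul, div_mul_cancel₀ _ hpos.ne']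
    rw [sin_add, cos_add, cos_pi_div_six, sin_pi_div_six]
    linear_combination (-(1 / 2)) * sin y * h3
  rw [e1, abs_div, abs_neg, abs_mul, abs_of_pos hpos, abs_of_pos (by norm_num : (0 : ℝ) < 2),
    div_le_iff₀ hpos]
  have h2 : |sin y| ≤ |y| := abs_sin_le_abs
  have u0 := abs_nonneg y
  nlinarith

lemma bound_B (hy : |y| ≤ 1 / 40) :
    |cos (π / 6 + y) * sin (11 * δ)
      - cos (π / 6 + y) / sin (π / 6 + y) * sin δ * sin (11 * (π / 6 + y)) - 6 * √3 * δ|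
      ≤ |δ| * (36 * |y| + 200 * δ ^ 2) := by
  obtain ⟨s1, s2⟩ := sqrt3_bounds
  set q := cos (π / 6 + y) / sin (π / 6 + y) with hq
  have hq1 := cot_bound y hy
  rw [← hq] at hq1
  have e1 : sin (11 * (π / 6 + y)) = √3 / 2 * sin (11 * y) - 1 / 2 * cos (11 * y) := by
    have : 11 * (π / 6 + y) = (11 * y - π / 6) + 2 * π := by ring
    rw [this, sin_add_two_pi, sin_sub, cos_pi_div_six, sin_pi_div_six]
    ring
  have u0 := abs_nonneg y
  have u2 : |y| ^ 2 = y ^ 2 := sq_abs y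
  have d0 := abs_nonneg δ
  have d2 : |δ| ^ 2 = δ ^ 2 := sq_abs δ
  have a1 : |(cos (π / 6 + y) - √3 / 2) * sin (11 * δ)| ≤ |y| * (11 * |δ|) := by
    refine abs_mul_le (cos_sub_le y hy) ?_
    refine abs_sin_le_abs.trans ?_
    rw [abs_mul, abs_of_pos (by norm_num : (0 : ℝ) < 11)]
  have a2 : |√3 / 2 * (sin (11 * δ) - 11 * δ)| ≤ 0.8661 * (1331 * |δ| ^ 3 / 6) := by
    refine abs_mul_le ?_ ?_
    · rw [abs_of_pos (by positivity)]; norm_num at s2 ⊢; linarith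
    · have := abs_sin_sub_le (11 * δ)
      rw [abs_mul, mul_pow, abs_of_pos (by norm_num : (0 : ℝ) < 11)] at this
      norm_num at this ⊢
      exact this
  have a3 : |√3 / 2 * (sin δ - δ)| ≤ 0.8661 * (|δ| ^ 3 / 6) := by
    refine abs_mul_le ?_ (abs_sin_sub_le δ)
    rw [abs_of_pos (by positivity)]; norm_num at s2 ⊢; linarith
  have a4 : |sin (11 * (π / 6 + y)) + 1 / 2| ≤ 11 * |y| := by
    have b1 : |√3 / 2 * sin (11 * y)| ≤ 0.8661 * (11 * |y|) := by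
      refine abs_mul_le ?_ ?_
      · rw [abs_of_pos (by positivity)]; norm_num at s2 ⊢; linarith
      · refine abs_sin_le_abs.trans ?_
        rw [abs_mul, abs_of_pos (by norm_num : (0 : ℝ) < 11)]
    have b2 := one_sub_cos_nonneg (11 * y)
    have b3 := one_sub_cos_le (11 * y)
    have b4 : y ^ 2 ≤ |y| / 40 := by rw [← u2]; nlinarith
    have key : sin (11 * (π / 6 + y)) + 1 / 2
        = √3 / 2 * sin (11 * y) + 1 / 2 * (1 - cos (11 * y)) := by rw [e1]; ring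
    rw [key]
    rw [abs_le] at b1 ⊢
    norm_num at b1
    constructor <;> nlinarith [b1.1, b1.2]
  have a5 : |-(q - √3) * sin (11 * (π / 6 + y)) - √3 * (sin (11 * (π / 6 + y)) + 1 / 2)|
      ≤ 24 * |y| := by
    have c1 : |(q - √3) * sin (11 * (π / 6 + y))| ≤ 4.5 * |y| * 1 :=
      abs_mul_le hq1 (abs_sin_le_one _)
    have c2 : |√3 * (sin (11 * (π / 6 + y)) + 1 / 2)| ≤ 1.7321 * (11 * |y|) := by
      refine abs_mul_le ?_ a4
      rw [abs_of_pos (by positivity)]; exact s2.le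
    have key : -(q - √3) * sin (11 * (π / 6 + y)) - √3 * (sin (11 * (π / 6 + y)) + 1 / 2)
        = -((q - √3) * sin (11 * (π / 6 + y))) - √3 * (sin (11 * (π / 6 + y)) + 1 / 2) := by ring
    rw [key]
    rw [abs_le] at c1 c2 ⊢
    norm_num at c1 c2
    constructor <;> linarith [c1.1, c1.2, c2.1, c2.2]
  have a6 : |(-(q - √3) * sin (11 * (π / 6 + y)) - √3 * (sin (11 * (π / 6 + y)) + 1 / 2)) * sin δ|
      ≤ 24 * |y| * |δ| := abs_mul_le a5 abs_sin_le_abs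
  have key : cos (π / 6 + y) * sin (11 * δ) - q * sin δ * sin (11 * (π / 6 + y)) - 6 * √3 * δ
      = (cos (π / 6 + y) - √3 / 2) * sin (11 * δ) + √3 / 2 * (sin (11 * δ) - 11 * δ)
        + √3 / 2 * (sin δ - δ)
        + (-(q - √3) * sin (11 * (π / 6 + y)) - √3 * (sin (11 * (π / 6 + y)) + 1 / 2)) * sin δ := by
    ring
  rw [key]
  have d3 : |δ| ^ 3 = |δ| * δ ^ 2 := by rw [← d2]; ring
  rw [d3] at a2 a3
  have m1 : 0 ≤ |δ| * δ ^ 2 := by positivity
  have m2 : 0 ≤ |y| * |δ| := by positivity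
  rw [abs_le] at a1 a2 a3 a6 ⊢
  norm_num at a2 a3
  constructor <;> nlinarith [a1.1, a1.2, a2.1, a2.2, a3.1, a3.2, a6.1, a6.2]

lemma bound_C (hy : |y| ≤ 1 / 40) :
    |cos (π / 6 + y) * cos (22 * δ) + cos δ * cos (22 * (π / 6 + y)) - (√3 + 1) / 2|
      ≤ 24 * |y| + 243 * δ ^ 2 := by
  obtain ⟨s1, s2⟩ := sqrt3_bounds
  have e1 : cos (22 * (π / 6 + y)) = 1 / 2 * cos (22 * y) + √3 / 2 * sin (22 * y) := by
    have : 22 * (π / 6 + y) = (22 * y - π / 3) + 2 * π + 2 * π := by ring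
    rw [this, cos_add_two_pi, cos_add_two_pi, cos_sub, cos_pi_div_three, sin_pi_div_three]
    ring
  have u0 := abs_nonneg y
  have u2 : |y| ^ 2 = y ^ 2 := sq_abs y
  have a1 : |cos (π / 6 + y) * (cos (22 * δ) - 1)| ≤ 1 * ((22 * δ) ^ 2 / 2) := by
    refine abs_mul_le (abs_cos_le_one _) ?_
    rw [abs_sub_comm, abs_of_nonneg (one_sub_cos_nonneg _)]
    exact one_sub_cos_le _
  have a2 : |cos (22 * (π / 6 + y)) * (1 - cos δ)| ≤ 1 * (δ ^ 2 / 2) := by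
    refine abs_mul_le (abs_cos_le_one _) ?_
    rw [abs_of_nonneg (one_sub_cos_nonneg _)]
    exact one_sub_cos_le _
  have a3 := cos_sub_le y hy
  have b1 : |√3 / 2 * sin (22 * y)| ≤ 0.8661 * (22 * |y|) := by
    refine abs_mul_le ?_ ?_
    · rw [abs_of_pos (by positivity)]; norm_num at s2 ⊢; linarith
    · refine abs_sin_le_abs.trans ?_
      rw [abs_mul, abs_of_pos (by norm_num : (0 : ℝ) < 22)]
  have b2 := one_sub_cos_nonneg (22 * y)
  have b3 := one_sub_cos_le (22 * y)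
  have b4 : y ^ 2 ≤ |y| / 40 := by rw [← u2]; nlinarith
  have key : cos (π / 6 + y) * cos (22 * δ) + cos δ * cos (22 * (π / 6 + y)) - (√3 + 1) / 2
      = cos (π / 6 + y) * (cos (22 * δ) - 1) - cos (22 * (π / 6 + y)) * (1 - cos δ)
        + (cos (π / 6 + y) - √3 / 2) + √3 / 2 * sin (22 * y) - 1 / 2 * (1 - cos (22 * y)) := by
    rw [e1]; ring
  rw [key]
  rw [abs_le] at a1 a2 a3 b1 ⊢
  norm_num at b1
  constructor <;> nlinarith [a1.1, a1.2, a2.1, a2.2, a3.1, a3.2, b1.1, b1.2]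

lemma bound_D (hy : |y| ≤ 1 / 40) :
    |cos (π / 6 + y) * sin (22 * δ)
      + cos (π / 6 + y) / sin (π / 6 + y) * sin δ * sin (22 * (π / 6 + y))| ≤ 24 * |δ| := by
  obtain ⟨s1, s2⟩ := sqrt3_bounds
  set q := cos (π / 6 + y) / sin (π / 6 + y) with hq
  have hq1 := cot_bound y hy
  rw [← hq] at hq1
  have d0 := abs_nonneg δ
  have hq2 : |q| ≤ 2 := by
    rw [abs_le] at hq1 ⊢
    norm_num at hq1 s2 s1
    have u0 := abs_nonneg y
    constructor <;> linarith [hq1.1, hq1.2]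
  have a1 : |cos (π / 6 + y) * sin (22 * δ)| ≤ 1 * (22 * |δ|) := by
    refine abs_mul_le (abs_cos_le_one _) ?_
    refine abs_sin_le_abs.trans ?_
    rw [abs_mul, abs_of_pos (by norm_num : (0 : ℝ) < 22)]
  have a2 : |q * sin δ * sin (22 * (π / 6 + y))| ≤ 2 * |δ| * 1 :=
    abs_mul_le (abs_mul_le hq2 abs_sin_le_abs) (abs_sin_le_one _)
  refine (abs_add_le _ _).trans ?_
  linarith

lemma bound_E (hy : |y| ≤ 1 / 40) :
    -(6 * δ ^ 2 * |y|) ≤ sin δ ^ 2 * sin (2 * y)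
      / (2 * sin (π / 6 + y) * cos (π / 6 - y) * sin (π / 6 + y)) := by
  obtain ⟨s1, s2⟩ := sqrt3_bounds
  have h1 := sin_ge y hy
  have h2 : 0.84 ≤ cos (π / 6 - y) := by
    have := cos_sub_le (-y) (by rwa [abs_neg])
    rw [abs_neg, ← sub_eq_add_neg, abs_le] at this
    norm_num at s1 ⊢
    linarith [this.1]
  have hpos : 0 < sin (π / 6 + y) := lt_of_lt_of_le (by norm_num) h1
  have hpos2 : 0 < cos (π / 6 - y) := lt_of_lt_of_le (by norm_num) h2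
  have h3 : 0.34 ≤ 2 * sin (π / 6 + y) * cos (π / 6 - y) * sin (π / 6 + y) := by
    have h4 : (0.45 : ℝ) * 0.45 ≤ sin (π / 6 + y) * sin (π / 6 + y) :=
      mul_le_mul h1 h1 (by norm_num) hpos.le
    have h5 : (0.45 : ℝ) * 0.45 * 0.84 ≤ sin (π / 6 + y) * sin (π / 6 + y) * cos (π / 6 - y) :=
      mul_le_mul h4 h2 (by norm_num) (by positivity)
    norm_num at h5 ⊢
    linarith
  set Dn := 2 * sin (π / 6 + y) * cos (π / 6 - y) * sin (π / 6 + y)
  have hD : 0 < Dn := lt_of_lt_of_le (by norm_num) h3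
  have u0 := abs_nonneg y
  have h6 : |sin δ ^ 2 * sin (2 * y)| ≤ δ ^ 2 * (2 * |y|) := by
    refine abs_mul_le ?_ ?_
    · rw [abs_pow, ← sq_abs δ]
      exact pow_le_pow_left₀ (abs_nonneg _) abs_sin_le_abs 2
    · refine abs_sin_le_abs.trans ?_
      rw [abs_mul, abs_of_pos (by norm_num : (0 : ℝ) < 2)]
  rw [le_div_iff₀ hD]
  have h7 := (abs_le.1 h6).1
  have h8 : 0 ≤ δ ^ 2 * |y| := by positivity
  nlinarith [mul_nonneg h8 (by linarith : 0 ≤ Dn - 0.34)]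

end bounds

/-- The local inequality. -/
theorem local_ineq (y t δ : ℝ) (hy : |y| ≤ 1 / 40) (hδ : δ = 3 * √3 * ε * sin t) :
    0 < 2 * (cos δ - cos y)
      + ε * (cos t * (cos (π / 6 + y) * cos (11 * δ) - cos δ * cos (11 * (π / 6 + y)))
        + sin t * (cos (π / 6 + y) * sin (11 * δ)
          - cos (π / 6 + y) / sin (π / 6 + y) * sin δ * sin (11 * (π / 6 + y))))
      + b * (cos (2 * t) * (cos (π / 6 + y) * cos (22 * δ) + cos δ * cos (22 * (π / 6 + y)))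
        + sin (2 * t) * (cos (π / 6 + y) * sin (22 * δ)
          + cos (π / 6 + y) / sin (π / 6 + y) * sin δ * sin (22 * (π / 6 + y))))
      + sin δ ^ 2 * sin (2 * y)
        / (2 * sin (π / 6 + y) * cos (π / 6 - y) * sin (π / 6 + y)) := by
  obtain ⟨s1, s2⟩ := sqrt3_bounds
  have h3 : √3 ^ 2 = 3 := Real.sq_sqrt (by norm_num)
  have hE := bound_E y δ hy
  have hA := bound_A y δ hy
  have hB := bound_B y δ hy
  have hC := bound_C y δ hy
  have hD := bound_D y δ hy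
  set A := cos (π / 6 + y) * cos (11 * δ) - cos δ * cos (11 * (π / 6 + y))
  set B := cos (π / 6 + y) * sin (11 * δ)
          - cos (π / 6 + y) / sin (π / 6 + y) * sin δ * sin (11 * (π / 6 + y))
  set C := cos (π / 6 + y) * cos (22 * δ) + cos δ * cos (22 * (π / 6 + y))
  set D := cos (π / 6 + y) * sin (22 * δ)
          + cos (π / 6 + y) / sin (π / 6 + y) * sin δ * sin (22 * (π / 6 + y))
  set E := sin δ ^ 2 * sin (2 * y)
        / (2 * sin (π / 6 + y) * cos (π / 6 - y) * sin (π / 6 + y))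
  have hε : ε = 1 / 10000 := rfl
  have hb : b = 132 / 10 ^ 9 := rfl
  have hst := sin_sq_add_cos_sq t
  have hc2 : cos (2 * t) = cos t ^ 2 - sin t ^ 2 := by rw [cos_two_mul]; linarith
  set c := cos t with hc
  set s := sin t with hs
  have hs1 : |s| ≤ 1 := abs_sin_le_one t
  have hc1 : |c| ≤ 1 := abs_cos_le_one t
  set u := |y| with hu
  have u0 : 0 ≤ u := abs_nonneg y
  have u2 : u ^ 2 = y ^ 2 := sq_abs y
  have hδ2 : δ ^ 2 = 27 * ε ^ 2 * s ^ 2 := by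
    rw [hδ]; linear_combination (9 * ε ^ 2 * s ^ 2) * h3
  have hδs : 6 * √3 * δ * s = 54 * ε * s ^ 2 := by
    rw [hδ]; linear_combination (18 * ε * s ^ 2) * h3
  have hδ3 : |δ| ≤ 5.2 * ε := by
    rw [hδ, abs_mul, abs_of_pos (by rw [hε]; positivity : 0 < 3 * √3 * ε)]
    have : 3 * √3 * ε * |s| ≤ 3 * √3 * ε * 1 :=
      mul_le_mul_of_nonneg_left hs1 (by rw [hε]; positivity)
    refine this.trans ?_
    rw [hε]
    norm_num at s2 ⊢
    linarith
  have hs2 : s ^ 2 ≤ 1 := by nlinarith [sq_nonneg c]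
  have s20 := sq_nonneg s
  have c20 := sq_nonneg c
  have d0 := abs_nonneg δ
  -- the five estimates
  have L1 : 0.9999 * y ^ 2 - 27 * ε ^ 2 * s ^ 2 ≤ 2 * (cos δ - cos y) := by
    have e1 := one_sub_cos_le δ
    have e2 := abs_le.1 (cos_bound (x := y) (by rw [← hu]; linarith))
    have e3 : |y| ^ 4 = y ^ 2 * y ^ 2 := by rw [← hu]; nlinarith [u2]
    have e4 : y ^ 2 ≤ 1 / 1600 := by rw [← u2]; nlinarith
    rw [e3] at e2
    rw [hδ2] at e1
    norm_num at e2 ⊢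
    nlinarith [e2.2, mul_nonneg (sq_nonneg y) (by linarith : 0 ≤ 1 / 1600 - y ^ 2)]
  have L2 : -(6 * ε * (y * c)) - ε * (61 * (27 * ε ^ 2) + 56 * y ^ 2) ≤ ε * (c * A) := by
    have e1 : |c * (A + 6 * y)| ≤ 1 * (61 * (27 * ε ^ 2 * s ^ 2) + 56 * y ^ 2) := by
      rw [← hδ2]
      exact abs_mul_le hc1 hA
    have e2 := (abs_le.1 e1).1
    have e3 : 27 * ε ^ 2 * s ^ 2 ≤ 27 * ε ^ 2 := by
      have : 27 * ε ^ 2 * s ^ 2 ≤ 27 * ε ^ 2 * 1 :=
        mul_le_mul_of_nonneg_left hs2 (by positivity)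
      linarith
    have e4 : -(61 * (27 * ε ^ 2) + 56 * y ^ 2) ≤ c * A + 6 * (y * c) := by
      have : c * (A + 6 * y) = c * A + 6 * (y * c) := by ring
      linarith
    have e5 := mul_le_mul_of_nonneg_left e4 (by rw [hε]; norm_num : 0 ≤ ε)
    linarith
  have L3 : 54 * ε ^ 2 * s ^ 2 - 5.2 * ε ^ 2 * (36 * u + 200 * (27 * ε ^ 2)) ≤ ε * (s * B) := by
    have e1 : |s * (B - 6 * √3 * δ)| ≤ 1 * (|δ| * (36 * u + 200 * δ ^ 2)) := abs_mul_le hs1 hB
    have e2 := (abs_le.1 e1).1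
    have e3 : 27 * ε ^ 2 * s ^ 2 ≤ 27 * ε ^ 2 := by
      have : 27 * ε ^ 2 * s ^ 2 ≤ 27 * ε ^ 2 * 1 :=
        mul_le_mul_of_nonneg_left hs2 (by positivity)
      linarith
    have e4 : |δ| * (36 * u + 200 * δ ^ 2) ≤ 5.2 * ε * (36 * u + 200 * (27 * ε ^ 2)) := by
      refine mul_le_mul hδ3 ?_ (by positivity) (by rw [hε]; norm_num)
      rw [hδ2]; linarith
    have e5 : 54 * ε * s ^ 2 - 5.2 * ε * (36 * u + 200 * (27 * ε ^ 2)) ≤ s * B := by
      have : s * (B - 6 * √3 * δ) = s * B - 6 * √3 * δ * s := by ring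
      rw [this, hδs] at e2
      linarith
    have e6 := mul_le_mul_of_nonneg_left e5 (by rw [hε]; norm_num : 0 ≤ ε)
    linarith
  have L4 : b * (c ^ 2 - s ^ 2) * ((√3 + 1) / 2) - b * (24 * u + 243 * (27 * ε ^ 2))
      ≤ b * (cos (2 * t) * C) := by
    have e1 : |cos (2 * t) * (C - (√3 + 1) / 2)| ≤ 1 * (24 * u + 243 * δ ^ 2) :=
      abs_mul_le (abs_cos_le_one _) hC
    have e2 := (abs_le.1 e1).1
    have e3 : 27 * ε ^ 2 * s ^ 2 ≤ 27 * ε ^ 2 := by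
      have : 27 * ε ^ 2 * s ^ 2 ≤ 27 * ε ^ 2 * 1 :=
        mul_le_mul_of_nonneg_left hs2 (by positivity)
      linarith
    rw [hδ2] at e2
    have e4 : cos (2 * t) * ((√3 + 1) / 2) - (24 * u + 243 * (27 * ε ^ 2)) ≤ cos (2 * t) * C := by
      have : cos (2 * t) * (C - (√3 + 1) / 2) = cos (2 * t) * C - cos (2 * t) * ((√3 + 1) / 2) := by
        ring
      linarith
    have e5 := mul_le_mul_of_nonneg_left e4 (by rw [hb]; norm_num : 0 ≤ b)
    rw [hc2] at e5 ⊢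
    linarith
  have L5 : -(b * (24 * (5.2 * ε))) ≤ b * (sin (2 * t) * D) := by
    have e1 : |sin (2 * t) * D| ≤ 1 * (24 * |δ|) := abs_mul_le (abs_sin_le_one _) hD
    have e2 := (abs_le.1 e1).1
    have e5 : b * (-(24 * (5.2 * ε))) ≤ b * (sin (2 * t) * D) :=
      mul_le_mul_of_nonneg_left (by linarith) (by rw [hb]; norm_num : 0 ≤ b)
    linarith
  have L6 : -(6 * (27 * ε ^ 2) * u) ≤ E := by
    have e3 : 27 * ε ^ 2 * s ^ 2 ≤ 27 * ε ^ 2 := by
      have : 27 * ε ^ 2 * s ^ 2 ≤ 27 * ε ^ 2 * 1 :=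
        mul_le_mul_of_nonneg_left hs2 (by positivity)
      linarith
    rw [hδ2] at hE
    have : 6 * (27 * ε ^ 2 * s ^ 2) * u ≤ 6 * (27 * ε ^ 2) * u :=
      mul_le_mul_of_nonneg_right (by linarith) u0
    linarith
  have M1 : 18.03 * ε ^ 2 * c ^ 2 - 18.04 * ε ^ 2 * s ^ 2
      ≤ b * (c ^ 2 - s ^ 2) * ((√3 + 1) / 2) := by
    rw [hε, hb]
    have f1 : 1.732 * c ^ 2 ≤ √3 * c ^ 2 := mul_le_mul_of_nonneg_right s1.le c20
    have f2 : √3 * s ^ 2 ≤ 1.7321 * s ^ 2 := mul_le_mul_of_nonneg_right s2.le s20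
    norm_num at f1 f2 ⊢
    nlinarith
  have N1 : 0 ≤ (0.98 * y - 3 * ε * c) ^ 2 := sq_nonneg _
  have N2 : 0 ≤ (u - 2.4 * ε) ^ 2 := sq_nonneg _
  rw [hε] at L1 L2 L3 L4 L5 L6 M1 N1 N2 ⊢
  rw [hb] at L4 L5 M1 ⊢
  norm_num at L1 L2 L3 L4 L5 L6 M1 N1 N2 ⊢
  nlinarith

end Pool.Agent.Helper72.Disk3
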