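import Pool.Agent.Helper72.Disk3.Core
import Pool.Agent.Helper16.Disk7.Core

/-!
# The body and two disks do not fit into the disk of three disks
-/

namespace Pool.Agent.Helper72.Disk3

open Metric Complex Pool.Agent.Helper16.Disk7

lemma ip_e (z : ℂ) (θ : ℝ) : ip z (e θ) = z.re * Real.cos θ + z.im * Real.sin θ := by
  rw [ip_eq, e_re, e_im]

lemma rot (z : ℂ) (μ x : ℝ) : ip z (e (μ + x))
    = (z.re * Real.cos μ + z.im * Real.sin μ) * Real.cos x
      + (-(z.re * Real.sin μ) + z.im * Real.cos μ) * Real.sin x := by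
  rw [ip_e, Real.cos_add, Real.sin_add]; ring

lemma e_mul_conj (ψ α : ℝ) : e ψ * (starRingEnd ℂ) (e α) = e (ψ - α) := by
  have h1 : (starRingEnd ℂ) (e α) = e (-α) := by
    apply Complex.ext
    · rw [Complex.conj_re, e_re, e_re, Real.cos_neg]
    · rw [Complex.conj_im, e_im, e_im, Real.sin_neg]
  rw [h1, e_mul, sub_eq_add_neg]

/-- The core when the separating directions are given in a suitable order. -/
lemma core_ordered (p c₁ c₂ : ℂ) (α ψ₁ ψ₂ : ℝ) (hψ : ψ₁ ≤ ψ₂) (hψ' : ψ₂ ≤ ψ₁ + Real.pi)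
    (h0 : ∀ ψ : ℝ, ip p (e ψ) + h (e ψ * (starRingEnd ℂ) (e α)) ≤ 1 + 2 / √3)
    (hc₁ : ‖c₁‖ ≤ 2 / √3) (hc₂ : ‖c₂‖ ≤ 2 / √3) (hd : 2 ≤ ‖c₁ - c₂‖)
    (h1 : ip p (e ψ₁) + h (e ψ₁ * (starRingEnd ℂ) (e α)) + 1 ≤ ip c₁ (e ψ₁))
    (h2 : ip p (e ψ₂) + h (e ψ₂ * (starRingEnd ℂ) (e α)) + 1 ≤ ip c₂ (e ψ₂)) : False := by
  have h3 : √3 ^ 2 = 3 := Real.sq_sqrt (by norm_num)
  set μ := (ψ₁ + ψ₂) / 2 with hμ
  set γ := (ψ₂ - ψ₁) / 2 with hγ
  have e1 : ψ₁ = μ + -γ := by rw [hμ, hγ]; ring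
  have e2 : ψ₂ = μ + γ := by rw [hμ, hγ]; ring
  have hcs := Real.sin_sq_add_cos_sq μ
  have hsq : ∀ z : ℂ, (z.re * Real.cos μ + z.im * Real.sin μ) ^ 2
      + (-(z.re * Real.sin μ) + z.im * Real.cos μ) ^ 2 = ‖z‖ ^ 2 := by
    intro z
    rw [Complex.sq_norm, Complex.normSq_apply]
    linear_combination (z.re ^ 2 + z.im ^ 2) * hcs
  have hnn : ∀ z : ℂ, ‖z‖ ≤ 2 / √3 → ‖z‖ ^ 2 ≤ 4 / 3 := by
    intro z hz
    have : ‖z‖ ^ 2 ≤ (2 / √3) ^ 2 := pow_le_pow_left₀ (norm_nonneg _) hz 2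
    rw [div_pow, h3] at this
    norm_num at this
    exact this
  refine core_rot γ (p.re * Real.cos μ + p.im * Real.sin μ)
    (-(p.re * Real.sin μ) + p.im * Real.cos μ)
    (c₁.re * Real.cos μ + c₁.im * Real.sin μ)
    (-(c₁.re * Real.sin μ) + c₁.im * Real.cos μ)
    (c₂.re * Real.cos μ + c₂.im * Real.sin μ)
    (-(c₂.re * Real.sin μ) + c₂.im * Real.cos μ)
    (-(11 * (μ + Real.pi - α))) (by rw [hγ]; linarith) (by rw [hγ]; linarith) ?_ ?_ ?_ ?_ ?_ ?_
  · rw [hsq]; exact hnn _ hc₁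
  · rw [hsq]; exact hnn _ hc₂
  · have f1 := hsq (c₁ - c₂)
    rw [Complex.sub_re, Complex.sub_im] at f1
    have f2 : (2 : ℝ) ^ 2 ≤ ‖c₁ - c₂‖ ^ 2 := pow_le_pow_left₀ (by norm_num) hd 2
    rw [← f1] at f2
    norm_num at f2
    refine f2.trans (le_of_eq ?_)
    ring
  · intro δ
    have f1 := h0 (μ + (δ + Real.pi))
    rw [e_mul_conj, h_e, rot, Real.cos_add_pi, Real.sin_add_pi] at f1
    have g1 : 11 * (μ + (δ + Real.pi) - α) = 11 * δ - -(11 * (μ + Real.pi - α)) := by ring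
    have g2 : 22 * (μ + (δ + Real.pi) - α) = 22 * δ - 2 * -(11 * (μ + Real.pi - α)) := by ring
    rw [g1, g2] at f1
    linarith
  · rw [e1, e_mul_conj, h_e, rot, rot, Real.cos_neg, Real.sin_neg] at h1
    have g1 : 11 * (μ + -γ - α)
        = (Real.pi - (11 * γ + -(11 * (μ + Real.pi - α)))) - (6 : ℕ) * (2 * Real.pi) := by
      push_cast; ring
    have g2 : 22 * (μ + -γ - α)
        = -(22 * γ + 2 * -(11 * (μ + Real.pi - α))) - (11 : ℕ) * (2 * Real.pi) := by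
      push_cast; ring
    rw [g1, g2, Real.cos_sub_nat_mul_two_pi, Real.cos_sub_nat_mul_two_pi, Real.cos_pi_sub,
      Real.cos_neg] at h1
    linarith
  · rw [e2, e_mul_conj, h_e, rot, rot] at h2
    have g1 : 11 * (μ + γ - α)
        = ((11 * γ - -(11 * (μ + Real.pi - α))) + Real.pi) - (6 : ℕ) * (2 * Real.pi) := by
      push_cast; ring
    have g2 : 22 * (μ + γ - α)
        = (22 * γ - 2 * -(11 * (μ + Real.pi - α))) - (11 : ℕ) * (2 * Real.pi) := by
      push_cast; ring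
    rw [g1, g2, Real.cos_sub_nat_mul_two_pi, Real.cos_sub_nat_mul_two_pi, Real.cos_add_pi] at h2
    linarith

/-- The core. -/
theorem core (p a c₁ c₂ : ℂ) (ha : ‖a‖ = 1)
    (h0 : ∀ n : ℂ, ‖n‖ = 1 → ip p n + h (n * (starRingEnd ℂ) a) ≤ 1 + 2 / √3)
    (hc₁ : ‖c₁‖ ≤ 2 / √3) (hc₂ : ‖c₂‖ ≤ 2 / √3) (hd : 2 ≤ ‖c₁ - c₂‖)
    (h1 : ∃ n : ℂ, ‖n‖ = 1 ∧ ip p n + h (n * (starRingEnd ℂ) a) + 1 ≤ ip c₁ n)
    (h2 : ∃ n : ℂ, ‖n‖ = 1 ∧ ip p n + h (n * (starRingEnd ℂ) a) + 1 ≤ ip c₂ n) : False := by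
  obtain ⟨α, rfl⟩ := exists_e a ha
  obtain ⟨n₁, hn₁, h1⟩ := h1
  obtain ⟨n₂, hn₂, h2⟩ := h2
  obtain ⟨ψ₁, rfl⟩ := exists_e n₁ hn₁
  obtain ⟨ψ₂, rfl⟩ := exists_e n₂ hn₂
  have h0' : ∀ ψ : ℝ, ip p (e ψ) + h (e ψ * (starRingEnd ℂ) (e α)) ≤ 1 + 2 / √3 :=
    fun ψ => h0 _ (norm_e ψ)
  obtain ⟨k, hk1, hk2⟩ := exists_rep ψ₂ (ψ₁ - Real.pi)
  rw [← e_add_int ψ₂ k] at h2
  set ψ := ψ₂ + k * (2 * Real.pi)
  rcases le_total ψ₁ ψ with hle | hle
  · exact core_ordered p c₁ c₂ α ψ₁ ψ hle (by linarith) h0' hc₁ hc₂ hd h1 h2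
  · exact core_ordered p c₂ c₁ α ψ ψ₁ hle (by linarith) h0' hc₂ hc₁ (by rwa [norm_sub_rev]) h2 h1

lemma image_closedBall (g : ℂ → ℂ) (a b : ℂ) (ha : ‖a‖ = 1) (hg : ∀ z, g z = a * z + b) (s : ℝ) :
    g '' closedBall (0 : ℂ) s = closedBall b s := by
  have ha0 : a ≠ 0 := by
    intro h0
    rw [h0, norm_zero] at ha
    norm_num at ha
  ext z
  simp only [Set.mem_image, mem_closedBall, dist_eq_norm, sub_zero]
  constructor
  · rintro ⟨w, hw, rfl⟩
    rw [hg, add_sub_cancel_right, norm_mul, ha, one_mul]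
    exact hw
  · intro hz
    refine ⟨a⁻¹ * (z - b), ?_, ?_⟩
    · rw [norm_mul, norm_inv, ha, inv_one, one_mul]
      exact hz
    · rw [hg, mul_inv_cancel_left₀ ha0]
      ring

lemma ip_div (z n : ℂ) (s : ℝ) : ip (z / s) n = ip z n / s := by
  rw [ip_eq, ip_eq, Complex.div_ofReal_re, Complex.div_ofReal_im]
  ring

lemma ip_smul_left (r : ℝ) (z w : ℂ) : ip ((r : ℂ) * z) w = r * ip z w := by
  simp only [ip_eq, Complex.mul_re, Complex.mul_im, Complex.ofReal_re, Complex.ofReal_im]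
  ring

lemma ip_self_eq_one (n : ℂ) (hn : ‖n‖ = 1) : ip n n = 1 := by
  have h2 := Complex.sq_norm n
  rw [hn, Complex.normSq_apply] at h2
  rw [ip_eq]
  linarith

lemma ball_subset_image (s : ℝ) (hs : 0 < s) (g : ℂ → ℂ) (a b : ℂ) (ha : ‖a‖ = 1)
    (hg : ∀ z, g z = a * z + b) : ball b (s / 2) ⊆ g '' body s := by
  have h1 := image_closedBall g a b ha hg (s / 2)
  refine ball_subset_closedBall.trans ?_
  rw [← h1]
  exact Set.image_mono (ball_subset_body s hs.le)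

/-- If a disk of radius `s` lies in the disk of radius `R * s`. -/
lemma norm_le_of_subset (c : ℂ) (s R : ℝ) (hs : 0 < s) (hR : 1 ≤ R)
    (hsub : closedBall c s ⊆ closedBall (0 : ℂ) (R * s)) : ‖c / s‖ ≤ R - 1 := by
  by_cases h0 : c = 0
  · rw [h0]; simp; linarith
  · have hn : 0 < ‖c‖ := norm_pos_iff.2 h0
    have h1 : c + s * (c / ‖c‖) ∈ closedBall c s := by
      rw [mem_closedBall, dist_eq_norm, add_sub_cancel_left, norm_mul, norm_div, Complex.norm_real,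
        Complex.norm_real, norm_norm, div_self hn.ne', mul_one, Real.norm_of_nonneg hs.le]
    have h2 := hsub h1
    rw [mem_closedBall_zero_iff] at h2
    have h3 : c + s * (c / ‖c‖) = ((1 + s / ‖c‖ : ℝ) : ℂ) * c := by
      push_cast
      field_simp
    rw [h3, norm_mul, Complex.norm_real, Real.norm_of_nonneg (by positivity)] at h2
    have h4 : (1 + s / ‖c‖) * ‖c‖ = ‖c‖ + s := by field_simp
    rw [h4] at h2
    rw [norm_div, Complex.norm_real, Real.norm_of_nonneg hs.le, div_le_iff₀ hs]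
    linarith

theorem not_accommodates (s : ℝ) (hs : 0 < s) :
    ¬ Accommodates (closedBall (0 : ℂ) ((1 + 2 / √3) * s))
      ![body s, closedBall (0 : ℂ) s, closedBall (0 : ℂ) s] := by
  rintro ⟨g, hg, hsub, hdis⟩
  choose a b ha hg' using hg
  have hR : 1 ≤ 1 + 2 / √3 := by
    have : 0 ≤ 2 / √3 := by positivity
    linarith
  have hi1 : g 1 '' closedBall (0 : ℂ) s = closedBall (b 1) s :=
    image_closedBall _ _ _ (ha 1) (hg' 1) s
  have hi2 : g 2 '' closedBall (0 : ℂ) s = closedBall (b 2) s :=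
    image_closedBall _ _ _ (ha 2) (hg' 2) s
  have hs0 : g 0 '' body s ⊆ closedBall (0 : ℂ) ((1 + 2 / √3) * s) := hsub 0
  have hs1 : closedBall (b 1) s ⊆ closedBall (0 : ℂ) ((1 + 2 / √3) * s) := by
    rw [← hi1]; exact hsub 1
  have hs2 : closedBall (b 2) s ⊆ closedBall (0 : ℂ) ((1 + 2 / √3) * s) := by
    rw [← hi2]; exact hsub 2
  have hd01 : Disjoint (interior (g 0 '' body s)) (interior (closedBall (b 1) s)) := by
    rw [← hi1]; exact hdis 0 1 (by decide)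
  have hd02 : Disjoint (interior (g 0 '' body s)) (interior (closedBall (b 2) s)) := by
    rw [← hi2]; exact hdis 0 2 (by decide)
  have hd12 : Disjoint (interior (closedBall (b 1) s)) (interior (closedBall (b 2) s)) := by
    rw [← hi1, ← hi2]; exact hdis 1 2 (by decide)
  have hint0 : (interior (g 0 '' body s)).Nonempty := by
    refine ⟨b 0, ?_⟩
    rw [mem_interior]
    exact ⟨_, ball_subset_image s hs (g 0) (a 0) (b 0) (ha 0) (hg' 0), isOpen_ball,
      mem_ball_self (by positivity)⟩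
  have hintb : ∀ c : ℂ, (interior (closedBall c s)).Nonempty := by
    intro c
    rw [interior_closedBall _ hs.ne']
    exact ⟨c, mem_ball_self hs⟩
  have hmem : ∀ c n : ℂ, ‖n‖ = 1 → c + (-s : ℝ) * n ∈ closedBall c s := by
    intro c n hn
    rw [mem_closedBall, dist_eq_norm, add_sub_cancel_left, norm_mul, hn, mul_one,
      Complex.norm_real, norm_neg, Real.norm_of_nonneg hs.le]
  have hmem' : ∀ c n : ℂ, ‖n‖ = 1 → c + (s : ℝ) * n ∈ closedBall c s := by
    intro c n hn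
    rw [mem_closedBall, dist_eq_norm, add_sub_cancel_left, norm_mul, hn, mul_one,
      Complex.norm_real, Real.norm_of_nonneg hs.le]
  have hun : ∀ n : ℂ, ‖n‖ = 1 → ‖n * (starRingEnd ℂ) (a 0)‖ = 1 := by
    intro n hn
    rw [norm_mul, Complex.norm_conj, hn, ha, one_mul]
  have hval : ∀ n : ℂ, ‖n‖ = 1 → ip (g 0 (pt s (n * (starRingEnd ℂ) (a 0)))) n
      = s * h (n * (starRingEnd ℂ) (a 0)) + ip (b 0) n := by
    intro n hn
    rw [hg', ip_add_left, ip_mul_left, ip_pt_self s _ (hun n hn)]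
  have hsepn : ∀ c : ℂ, Disjoint (interior (g 0 '' body s)) (interior (closedBall c s)) →
      ∃ n : ℂ, ‖n‖ = 1 ∧ ip (b 0 / s) n + h (n * (starRingEnd ℂ) (a 0)) + 1 ≤ ip (c / s) n := by
    intro c hc
    obtain ⟨n, hn, hsep⟩ := separate (convex_image (g 0) ⟨a 0, b 0, ha 0, hg' 0⟩ (convex_body s))
      (convex_closedBall c s) hint0 (hintb c) hc
    refine ⟨n, hn, ?_⟩
    have f1 := hsep _ ⟨pt s (n * (starRingEnd ℂ) (a 0)), pt_mem s hs.le _ (hun n hn), rfl⟩ _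
      (hmem c n hn)
    rw [hval n hn, ip_add_left, ip_smul_left, ip_self_eq_one n hn] at f1
    rw [ip_div, ip_div]
    have f2 : (s * h (n * (starRingEnd ℂ) (a 0)) + ip (b 0) n) / s ≤ (ip c n + -s * 1) / s :=
      div_le_div_of_nonneg_right f1 hs.le
    have f3 : (s * h (n * (starRingEnd ℂ) (a 0)) + ip (b 0) n) / s
        = h (n * (starRingEnd ℂ) (a 0)) + ip (b 0) n / s := by field_simp
    have f4 : (ip c n + -s * 1) / s = ip c n / s - 1 := by field_simp; ring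
    rw [f3, f4] at f2
    linarith
  refine core (b 0 / s) (a 0) (b 1 / s) (b 2 / s) (ha 0) ?_ ?_ ?_ ?_ (hsepn _ hd01) (hsepn _ hd02)
  · intro n hn
    have f1 : g 0 (pt s (n * (starRingEnd ℂ) (a 0))) ∈ closedBall (0 : ℂ) ((1 + 2 / √3) * s) :=
      hs0 ⟨_, pt_mem s hs.le _ (hun n hn), rfl⟩
    rw [mem_closedBall_zero_iff] at f1
    have f2 := (ip_le_norm _ n hn).trans f1
    rw [hval n hn] at f2
    rw [ip_div]
    have f3 : (s * h (n * (starRingEnd ℂ) (a 0)) + ip (b 0) n) / s ≤ ((1 + 2 / √3) * s) / s :=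
      div_le_div_of_nonneg_right f2 hs.le
    have f4 : (s * h (n * (starRingEnd ℂ) (a 0)) + ip (b 0) n) / s
        = h (n * (starRingEnd ℂ) (a 0)) + ip (b 0) n / s := by field_simp
    rw [f4, mul_div_assoc, div_self hs.ne', mul_one] at f3
    linarith
  · have := norm_le_of_subset (b 1) s _ hs hR hs1
    linarith
  · have := norm_le_of_subset (b 2) s _ hs hR hs2
    linarith
  · obtain ⟨n, hn, hsep⟩ := separate (convex_closedBall (b 2) s) (convex_closedBall (b 1) s)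
      (hintb _) (hintb _) hd12.symm
    have f1 := hsep _ (hmem' (b 2) n hn) _ (hmem (b 1) n hn)
    rw [ip_add_left, ip_add_left, ip_smul_left, ip_smul_left, ip_self_eq_one n hn] at f1
    have f2 := ip_le_norm (b 1 - b 2) n hn
    rw [ip_sub_left] at f2
    have f3 : b 1 / s - b 2 / s = (b 1 - b 2) / s := by ring
    rw [f3, norm_div, Complex.norm_real, Real.norm_of_nonneg hs.le, le_div_iff₀ hs]
    linarith

/-- Three disks of radius `s` fit into a disk of radius `(1 + 2 / √3) * s`. -/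
theorem three_disks (s : ℝ) (hs : 0 < s) :
    Accommodates (closedBall (0 : ℂ) ((1 + 2 / √3) * s))
      (fun _ : Fin 3 => closedBall (0 : ℂ) s) := by
  have h3 : √3 ^ 2 = 3 := Real.sq_sqrt (by norm_num)
  have h3p : 0 < √3 := Real.sqrt_pos.2 (by norm_num)
  set c : Fin 3 → ℂ := ![⟨0, s * (2 / √3)⟩, ⟨s, -(s * (1 / √3))⟩, ⟨-s, -(s * (1 / √3))⟩] with hc
  have himg : ∀ i : Fin 3, (fun z => 1 * z + c i) '' closedBall (0 : ℂ) s = closedBall (c i) s :=
    fun i => image_closedBall _ 1 (c i) (by simp) (fun z => rfl) s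
  have hinv : (1 / √3) ^ 2 = 1 / 3 := by rw [div_pow, h3]; norm_num
  have hinv2 : (2 / √3) ^ 2 = 4 / 3 := by rw [div_pow, h3]; norm_num
  refine ⟨fun i z => 1 * z + c i, fun i => ⟨1, c i, by simp, fun z => rfl⟩, ?_, ?_⟩
  · intro i
    rw [himg]
    refine closedBall_subset_closedBall' ?_
    rw [dist_zero_right]
    have h1 : ‖c i‖ ≤ 2 / √3 * s := by
      refine abs_le_of_sq_le_sq' ?_ (by positivity) |>.2
      rw [Complex.sq_norm, Complex.normSq_apply, mul_pow, hinv2]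
      fin_cases i
      · simp only [hc, Fin.zero_eta, Matrix.cons_val_zero]
        nlinarith [hinv2]
      · simp only [hc, Fin.mk_one, Matrix.cons_val_one, Matrix.cons_val_zero]
        nlinarith [hinv]
      · simp only [hc, Fin.reduceFinMk, Matrix.cons_val]
        nlinarith [hinv]
    linarith
  · intro i j hij
    rw [himg, himg, interior_closedBall _ hs.ne', interior_closedBall _ hs.ne']
    refine ball_disjoint_ball ?_
    rw [dist_eq_norm]
    refine abs_le_of_sq_le_sq' (b := ‖c i - c j‖) ?_ (norm_nonneg _) |>.2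
    rw [Complex.sq_norm, Complex.normSq_apply, Complex.sub_re, Complex.sub_im]
    have e1 : 2 / √3 = 2 * (1 / √3) := by ring
    fin_cases i <;> fin_cases j <;>
      simp only [hc, Fin.zero_eta, Fin.mk_one, Fin.reduceFinMk, Matrix.cons_val_zero,
        Matrix.cons_val_one, Matrix.cons_val, ne_eq, not_true_eq_false] at hij ⊢ <;>
      first
        | exact absurd rfl hij
        | (rw [e1]; nlinarith [hinv])
        | nlinarith [hinv]

end Pool.Agent.Helper72.Disk3
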